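import Pool.Agent.Lib_helper72.GEN.C

/-!
# Genus formula for Tunnell's coefficient (MP_05dcdc_nt): definitions
-/

set_option autoImplicit false

namespace Pool.Agent.GNF

open Finset Pool.Agent.GEN
open scoped Real

/-- integral vectors -/
abbrev T := ℤ × ℤ × ℤ

open Classical in
/-- the genus symbol with base vector `u`, extended by zero to the vectors which are zero or not
isotropic modulo `p` -/
noncomputable def psi (p : ℕ) (u v : T) : ℤ := if Iso p v then chi p v u else 0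

/-- product over the primes of `d` -/
noncomputable def Psi (d : ℕ) (u v : T) : ℤ := ∏ p ∈ d.primeFactors, psi p u v

/-! ### Fourier transform of periodic functions -/

/-- `F` has period `M` in each coordinate -/
def Per (M : ℕ) (F : T → ℂ) : Prop :=
  ∀ v w : T, F (v.1 + M * w.1, v.2.1 + M * w.2.1, v.2.2 + M * w.2.2) = F v

/-- representatives modulo `M` -/
noncomputable def cube (M : ℕ) : Finset T := Ico (0 : ℤ) M ×ˢ Ico (0 : ℤ) M ×ˢ Ico (0 : ℤ) M

/-- scalar multiple of a vector -/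
def sm (c : ℤ) (v : T) : T := (c * v.1, c * v.2.1, c * v.2.2)

/-- Fourier transform modulo `M` -/
noncomputable def FT (M : ℕ) (F : T → ℂ) (w : T) : ℂ :=
  ∑ v ∈ cube M, F v * Complex.exp (2 * π * Complex.I * (dot v w : ℤ) / M)

/-- theta series -/
noncomputable def th (M : ℕ) (F : T → ℂ) (τ : ℂ) : ℂ :=
  ∑' v : T, F v * Complex.exp (π * Complex.I * (dot v v : ℤ) * τ / M)

/-- theta series of a residue class in one variable -/
noncomputable def th1 (M : ℕ) (a : ℤ) (τ : ℂ) : ℂ :=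
  ∑' k : ℤ, Complex.exp (π * Complex.I * (((a + M * k) ^ 2 : ℤ) : ℂ) * τ / M)

/-! ### The six functions modulo `16` -/

/-- `(2/x)` -/
noncomputable def c2 (x : ℤ) : ℂ := if x % 8 = 1 ∨ x % 8 = 7 then 1 else if x % 8 = 3 ∨ x % 8 = 5 then -1 else 0
/-- `x = 2 mod 4` -/
noncomputable def o2 (x : ℤ) : ℂ := if x % 4 = 2 then 1 else 0
/-- `x = 2x'`, `(2/x')` -/
noncomputable def k2 (x : ℤ) : ℂ := if x % 16 = 2 ∨ x % 16 = 14 then 1 else if x % 16 = 6 ∨ x % 16 = 10 then -1 else 0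
/-- `x = 4x'`, `(-1)^x'` -/
noncomputable def u4 (x : ℤ) : ℂ := if x % 8 = 0 then 1 else if x % 8 = 4 then -1 else 0
/-- `4 ∣ x` -/
noncomputable def n4 (x : ℤ) : ℂ := if x % 4 = 0 then 1 else 0
/-- `x` odd -/
noncomputable def od (x : ℤ) : ℂ := if x % 2 = 1 then 1 else 0
/-- `x = 8x'`, `(-1)^x'` -/
noncomputable def e8 (x : ℤ) : ℂ := if x % 16 = 0 then 1 else if x % 16 = 8 then -1 else 0
/-- an even character modulo `16` -/
noncomputable def bq (x : ℤ) : ℂ :=
  if x % 16 = 1 ∨ x % 16 = 15 then 1 else if x % 16 = 3 ∨ x % 16 = 13 then -Complex.I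
  else if x % 16 = 5 ∨ x % 16 = 11 then Complex.I else if x % 16 = 7 ∨ x % 16 = 9 then -1 else 0
/-- its conjugate -/
noncomputable def bb (x : ℤ) : ℂ :=
  if x % 16 = 1 ∨ x % 16 = 15 then 1 else if x % 16 = 3 ∨ x % 16 = 13 then Complex.I
  else if x % 16 = 5 ∨ x % 16 = 11 then -Complex.I else if x % 16 = 7 ∨ x % 16 = 9 then -1 else 0

/-- the six functions -/
noncomputable def A : Fin 6 → T → ℂ
  | 0 => fun v => o2 v.1 * k2 v.2.1 * k2 v.2.2
  | 1 => fun v => u4 v.1 * c2 v.2.1 * c2 v.2.2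
  | 2 => fun v => n4 v.1 * bq v.2.1 * bq v.2.2
  | 3 => fun v => u4 v.1 * od v.2.1 * od v.2.2
  | 4 => fun v => n4 v.1 * bb v.2.1 * bb v.2.2
  | 5 => fun v => o2 v.1 * e8 v.2.1 * e8 v.2.2

/-- a primitive sixteenth root of unity -/
noncomputable def ze : ℂ := Complex.exp (2 * π * Complex.I / 16)

/-- action of `S` on the indices -/
def sS : Fin 6 → Fin 6 := ![1, 0, 4, 5, 2, 3]
/-- action of `T` on the indices -/
def sT : Fin 6 → Fin 6 := ![0, 2, 3, 4, 1, 5]
/-- multipliers of the Fourier transform modulo `16`, divided by `64` -/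
noncomputable def cS : Fin 6 → ℂ := ![1 / 2, 2, ze ^ 14, 4, ze ^ 2, 1 / 4]
/-- multipliers of `T` -/
noncomputable def cT : Fin 6 → ℂ := ![ze ^ 6, ze, ze, ze, ze, ze ^ 2]
/-- the indices whose multiplier of `T` depends on `d` -/
noncomputable def eT (ε : ℂ) : Fin 6 → ℂ := ![1, ε, ε, ε, ε, 1]
/-- orders at the cusp, times `32` -/
def oT : Fin 6 → ℕ := ![12, 2, 2, 2, 2, 4]

/-- weighted functions -/
noncomputable def AP (d : ℕ) (u : T) (i : Fin 6) (v : T) : ℂ := A i v * (Psi d u v : ℤ)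

/-- the sign of `d = 1 mod 8` -/
noncomputable def sd (d : ℕ) : ℂ := if d % 16 = 1 then 1 else -1

/-- the automorphy factor of weight `1/2` -/
noncomputable def J (τ : ℂ) : ℂ := (-Complex.I * τ) ^ (1 / 2 : ℂ)

/-- the vectors of norm `N` -/
noncomputable def sph (N : ℕ) : Finset T :=
  (Icc (-(N : ℤ)) N ×ˢ Icc (-(N : ℤ)) N ×ˢ Icc (-(N : ℤ)) N).filter (fun v => dot v v = N)

/-- transformation rules, holomorphy and decay of a system of six functions -/
structure Sys (f : Fin 6 → ℂ → ℂ) (δ ε : ℂ) : Prop where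
  hol : ∀ i, DifferentiableOn ℂ (f i) {τ | 0 < τ.im}
  S : ∀ i τ, 0 < τ.im → f i (-1 / τ) = δ * cS i * J τ ^ 3 * f (sS i) τ
  T : ∀ i τ, 0 < τ.im → f i (τ + 1) = eT ε i * cT i * f (sT i) τ
  bd : ∀ i, ∃ C : ℝ, ∀ τ : ℂ, 1 ≤ τ.im → ‖f i τ‖ ≤ C * Real.exp (-π * oT i * τ.im / 16)

end Pool.Agent.GNF
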