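import Pool.Agent.Lib_helper7.GNF.D
import Pool.Agent.Lib_helper72.GEN.K
import Pool.Prelude.Def_F_25f10a9b

/-!
# Genus formula (MP_05dcdc_nt): definitions of the arithmetic part
-/

set_option autoImplicit false

namespace Pool.Agent.GNF

open Finset Pool.Agent.GEN

open Classical in
/-- the genus character attached to `d = 1 mod 8`; the base vector is any vector of norm `d` -/
noncomputable def kap (d : ℕ) (v : T) : ℤ :=
  if h : ∃ u : T, dot u u = d then Pool.Agent.GEN.kap h.choose * Psi d h.choose v else 0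

/-- Tunnell's number `2|A_n| - |B_n|` -/
noncomputable def tc (n : ℕ) : ℤ := 2 * ((N9003ba20.A n).ncard : ℤ) - ((N9003ba20.B n).ncard : ℤ)

/-- `(2/x)`, zero for `x` even -/
def j2 (x : ℤ) : ℤ := if x % 8 = 1 ∨ x % 8 = 7 then 1 else if x % 8 = 3 ∨ x % 8 = 5 then -1 else 0

/-- `(-1)^(x/4)` for `4 ∣ x`, zero otherwise -/
def q4 (x : ℤ) : ℤ := if x % 8 = 0 then 1 else if x % 8 = 4 then -1 else 0

/-- weight for `n = 3 mod 8` -/
def w3 (v : T) : ℤ := if v.1 % 2 = 1 then j2 v.2.1 * j2 v.2.2 else 0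

/-- weight for `n = 1 mod 8` -/
def w1 (v : T) : ℤ := if v.1 % 2 = 1 then q4 v.2.1 * q4 v.2.2 else 0

/-- number of prime factors `3 mod 4` -/
def nu (d : ℕ) : ℕ := (d.primeFactors.filter (fun p => p % 4 = 3)).card

/-- the sign of a divisor `d = 1 mod 8` of `n` -/
def sgd (n p0 d : ℕ) : ℤ := (-1) ^ (nu d / 2) * (if nu n % 4 = 2 ∧ p0 ∣ d then -1 else 1)

/-- the sum over the divisors `1 mod 8` -/
noncomputable def Sg (n p0 : ℕ) : ℤ :=
  ∑ d ∈ n.divisors.filter (fun d => d % 8 = 1), sgd n p0 d * tc d * tc (n / d)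

/-- the vectors for `n = 3 mod 8`, as a finite set -/
noncomputable def OP (n : ℕ) : Finset T := (sph n).filter (fun v => v.1 * v.2.1 * v.2.2 % 4 = 1)

/-- the vectors for `n = 1 mod 8`, as a finite set -/
noncomputable def OQ (n : ℕ) : Finset T :=
  (sph n).filter (fun v => v.1 % 4 = 1 ∧ v.2.1 % 4 = 0 ∧ v.2.2 % 4 = 0)

/-- the genus of `w` in a finite set of vectors -/
noncomputable def Ge (n : ℕ) (Om : Finset T) (w : T) : Finset T :=
  Om.filter (fun v => ∀ p ∈ n.primeFactors, chi p v w = 1)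

end Pool.Agent.GNF
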