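import Pool.Agent.Lib_helper7.GNF.D2

/-!
# Genus formula (MP_05dcdc_nt), part 2: definitions
-/

set_option autoImplicit false

namespace Pool.Agent.GNF

open Finset Pool.Agent.GEN
open scoped Real

/-- the second system: twelve functions modulo `16` -/
noncomputable def B : Fin 12 → T → ℂ
  | 0 => fun v => od v.1 * u4 v.2.1 * n4 v.2.2
  | 1 => fun v => bb v.1 * n4 v.2.1 * u4 v.2.2
  | 2 => fun v => c2 v.1 * u4 v.2.1 * n4 v.2.2
  | 3 => fun v => bq v.1 * n4 v.2.1 * u4 v.2.2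
  | 4 => fun v => e8 v.1 * o2 v.2.1 * n4 v.2.2
  | 5 => fun v => e8 v.1 * o2 v.2.1 * u4 v.2.2
  | 6 => fun v => od v.1 * u4 v.2.1 * o2 v.2.2
  | 7 => fun v => bb v.1 * n4 v.2.1 * o2 v.2.2
  | 8 => fun v => c2 v.1 * u4 v.2.1 * o2 v.2.2
  | 9 => fun v => bq v.1 * n4 v.2.1 * o2 v.2.2
  | 10 => fun v => k2 v.1 * o2 v.2.1 * n4 v.2.2
  | 11 => fun v => k2 v.1 * o2 v.2.1 * u4 v.2.2

/-- a primitive root of unity of order `32` -/
noncomputable def zf : ℂ := Complex.exp (2 * π * Complex.I / 32)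
/-- the square root of two -/
noncomputable def rt : ℂ := ze ^ 2 - ze ^ 6

/-- action of `S` on the indices -/
def uS : Fin 12 → Fin 12 := ![4, 9, 10, 7, 0, 6, 5, 3, 11, 1, 2, 8]
/-- action of `T` on the indices -/
def uT : Fin 12 → Fin 12 := ![1, 2, 3, 0, 5, 4, 7, 8, 9, 6, 11, 10]
/-- multipliers of the Fourier transform modulo `16`, divided by `64` -/
noncomputable def dS : Fin 12 → ℂ :=
  ![2, ze, rt, -ze ^ 7, 1 / 2, 1 / 2, 2, ze, rt, -ze ^ 7, rt / 2, rt / 2]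
/-- the factor of the multipliers of `S` which depends on `d` -/
noncomputable def gS (ε : ℂ) : Fin 12 → ℂ := ![1, ε, 1, ε, 1, 1, 1, ε, 1, ε, 1, 1]
/-- multipliers of `T` -/
noncomputable def dT : Fin 12 → ℂ :=
  ![zf, zf, zf, zf, zf ^ 4, zf ^ 4, zf ^ 5, zf ^ 5, zf ^ 5, zf ^ 5, zf ^ 8, zf ^ 8]
/-- the factor of the multipliers of `T` which depends on `d` -/
noncomputable def fT (η : ℂ) : Fin 12 → ℂ := ![η, η, η, η, 1, 1, η, η, η, η, 1, 1]
/-- the fourth root of unity attached to `d = 1 mod 8` -/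
noncomputable def et (d : ℕ) : ℂ := (-Complex.I) ^ ((d - 1) / 8)
/-- orders at the cusp, times `32` -/
def pT : Fin 12 → ℕ := ![1, 1, 1, 1, 4, 4, 5, 5, 5, 5, 8, 8]

/-- weighted functions -/
noncomputable def BP (d : ℕ) (u : T) (i : Fin 12) (v : T) : ℂ := B i v * (Psi d u v : ℤ)

/-- a system of functions which are permuted, up to factors, by the modular group -/
structure SysG {ι : Type} (f : ι → ℂ → ℂ) (σ τ : ι → ι) (a b : ι → ℂ) (o : ι → ℕ) : Prop where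
  hol : ∀ i, DifferentiableOn ℂ (f i) {z | 0 < z.im}
  S : ∀ i z, 0 < z.im → f i (-1 / z) = a i * J z ^ 3 * f (σ i) z
  T : ∀ i z, 0 < z.im → f i (z + 1) = b i * f (τ i) z
  bd : ∀ i, ∃ C : ℝ, ∀ z : ℂ, 1 ≤ z.im → ‖f i z‖ ≤ C * Real.exp (-π * o i * z.im / 16)

/-- weight `(-1)^b` on the vectors `(a, 4b, 4c)`, `a` odd -/
def wb (v : T) : ℤ := if v.1 % 2 = 1 ∧ v.2.2 % 4 = 0 then q4 v.2.1 else 0

/-- weight `(-1)^s` on the vectors `(4s, X, Y)`, `X`, `Y` odd -/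
def we (v : T) : ℤ := if v.2.1 % 2 = 1 ∧ v.2.2 % 2 = 1 then q4 v.1 else 0

/-- the weighted number of vectors `(a, 4b, 4c)` of norm `n` -/
noncomputable def cb (n : ℕ) : ℤ := ∑ v ∈ sph n, wb v

/-- the weighted number of vectors `(4s, X, Y)` of norm `N` -/
noncomputable def Ce (N : ℕ) : ℤ := ∑ v ∈ sph N, we v

/-- Tunnell's number of `2n` -/
noncomputable def ce (n : ℕ) : ℤ :=
  2 * ((N9003ba20.C (2 * n)).ncard : ℤ) - ((N9003ba20.D (2 * n)).ncard : ℤ)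

/-- `(-1)^((n-1)/8)` for `n = 1 mod 8` -/
def sn (n : ℕ) : ℤ := if n % 16 = 1 then 1 else -1

/-- vectors of norm `2n` -/
noncomputable def OE (n : ℕ) : Finset T :=
  (sph (2 * n)).filter (fun v => v.1 % 4 = 0 ∧ v.2.1 % 2 = 1 ∧ v.2.2 % 2 = 1)

end Pool.Agent.GNF
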